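import Mathlib

/-!
# Project WC (MP_c8f8f3): definitions

The biased Waiter-Client game on the edges of the complete graph on `Fin n`.
-/

set_option autoImplicit false

namespace Pool.Agent.Helper72.WC

open Finset

variable {n : ℕ}

/-! ### The game -/

/-- The board: all pairs of distinct vertices. -/
def board (n : ℕ) : Finset (Sym2 (Fin n)) := Finset.univ.filter fun e => ¬ e.IsDiag

/-- Waiter can win from the position in which `U` is the set of the unselected pairs and `C` is the
set of the pairs of Client.  In every round Waiter offers a set `B` of `b` unselected pairs, Client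
claims one of them and the others go to Waiter; when fewer than `b` unselected pairs remain, they
all go to Waiter and the game is over. -/
inductive Win (b : ℕ) (A : Finset (Sym2 (Fin n)) → Prop) :
    Finset (Sym2 (Fin n)) → Finset (Sym2 (Fin n)) → Prop
  | stop {U C : Finset (Sym2 (Fin n))} : U.card < b → A C → Win b A U C
  | play {U C : Finset (Sym2 (Fin n))} (B : Finset (Sym2 (Fin n))) : B ⊆ U → B.card = b →
      (∀ e ∈ B, Win b A (U \ B) (insert e C)) → Win b A U C

/-- The graph of a set of pairs. -/
def gr (C : Finset (Sym2 (Fin n))) : SimpleGraph (Fin n) :=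
  SimpleGraph.fromEdgeSet (C : Set (Sym2 (Fin n)))

/-- `k`-vertex-connectivity. -/
def KConn (k : ℕ) (G : SimpleGraph (Fin n)) : Prop :=
  k < n ∧ ∀ S : Finset (Fin n), S.card < k → (G.induce {v | v ∉ S}).Connected

/-- Minimum degree at least `k`. -/
def MinDeg (k : ℕ) (G : SimpleGraph (Fin n)) : Prop := ∀ v, k ≤ (G.neighborSet v).ncard

/-- The threshold bias of the `k`-connectivity game. -/
noncomputable def qC (k n : ℕ) : ℕ :=
  sSup {q | 0 < q ∧ Win (q + 1) (fun C => KConn k (gr C)) (board n) ∅}

/-- The threshold bias of the minimum degree game. -/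
noncomputable def qD (k n : ℕ) : ℕ :=
  sSup {q | 0 < q ∧ Win (q + 1) (fun C => MinDeg k (gr C)) (board n) ∅}

/-! ### Forcing a position -/

/-- Waiter can force a position with the property `Φ`. -/
inductive Force (b : ℕ) (Φ : Finset (Sym2 (Fin n)) → Finset (Sym2 (Fin n)) → Prop) :
    Finset (Sym2 (Fin n)) → Finset (Sym2 (Fin n)) → Prop
  | here {U C : Finset (Sym2 (Fin n))} : Φ U C → Force b Φ U C
  | play {U C : Finset (Sym2 (Fin n))} (B : Finset (Sym2 (Fin n))) : B ⊆ U → B.card = b →
      (∀ e ∈ B, Force b Φ (U \ B) (insert e C)) → Force b Φ U C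

section Force

variable {b : ℕ} {Φ Ψ : Finset (Sym2 (Fin n)) → Finset (Sym2 (Fin n)) → Prop}
  {U C : Finset (Sym2 (Fin n))}

theorem Force.trans (h : Force b Φ U C) (h2 : ∀ U C, Φ U C → Force b Ψ U C) :
    Force b Ψ U C := by
  induction h with
  | here h => exact h2 _ _ h
  | play B hB hb _ ih => exact Force.play B hB hb ih

theorem Force.mono (h : Force b Φ U C) (h2 : ∀ U C, Φ U C → Ψ U C) : Force b Ψ U C :=
  h.trans fun U C h => Force.here (h2 U C h)

/-- The rounds which are left do no harm, when the property is monotone. -/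
theorem win_of_mem (hb : 0 < b) {A : Finset (Sym2 (Fin n)) → Prop}
    (hA : ∀ C C', C ⊆ C' → A C → A C') : ∀ (m : ℕ) (U C : Finset (Sym2 (Fin n))),
    U.card ≤ m → A C → Win b A U C := by
  intro m
  induction m with
  | zero => intro U C hU hC; exact Win.stop (by omega) hC
  | succ m ih =>
    intro U C hU hC
    by_cases h : U.card < b
    · exact Win.stop h hC
    · obtain ⟨B, hBU, hBb⟩ := Finset.exists_subset_card_eq (not_lt.1 h)
      refine Win.play B hBU hBb fun e _ => ih _ _ ?_ (hA _ _ (Finset.subset_insert _ _) hC)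
      rw [Finset.card_sdiff_of_subset hBU]
      omega

theorem Force.win (hb : 0 < b) {A : Finset (Sym2 (Fin n)) → Prop}
    (hA : ∀ C C', C ⊆ C' → A C → A C') (h : Force b (fun _ C => A C) U C) : Win b A U C := by
  induction h with
  | here h => exact win_of_mem hb hA _ _ _ le_rfl h
  | play B hB hb _ ih => exact Win.play B hB hb ih

/-- Loops. -/
theorem Force.loop (J : ℕ → Finset (Sym2 (Fin n)) → Finset (Sym2 (Fin n)) → Prop) (N : ℕ)
    (hstep : ∀ i < N, ∀ U C, J i U C → Force b (J (i + 1)) U C) (h0 : J 0 U C) :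
    Force b (J N) U C := by
  induction N with
  | zero => exact Force.here h0
  | succ N ih =>
    exact (ih fun i hi => hstep i (by omega)).trans (hstep N (by omega))

/-- One round, with pairs from a given set. -/
theorem force_pick {F : Finset (Sym2 (Fin n))} (hF : F ⊆ U) (hb : b ≤ F.card) :
    Force b (fun U' C' => ∃ B ⊆ F, B.card = b ∧ ∃ e ∈ B, U' = U \ B ∧ C' = insert e C) U C := by
  obtain ⟨B, hBF, hBb⟩ := Finset.exists_subset_card_eq hb
  exact Force.play B (hBF.trans hF) hBb fun e he =>
    Force.here ⟨B, hBF, hBb, e, he, rfl, rfl⟩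

end Force

/-! ### Neighbours, balls, sparse sets -/

/-- The neighbours of `x`. -/
def nb (C : Finset (Sym2 (Fin n))) (x : Fin n) : Finset (Fin n) :=
  Finset.univ.filter fun y => s(x, y) ∈ C

/-- The degree of `x`. -/
def dg (C : Finset (Sym2 (Fin n))) (x : Fin n) : ℕ := (nb C x).card

/-- The ball of radius `i` around `x`. -/
def ball (C : Finset (Sym2 (Fin n))) : ℕ → Fin n → Finset (Fin n)
  | 0, x => {x}
  | i + 1, x => ball C i x ∪ (ball C i x).biUnion (nb C)

/-- Every nonempty set of at most `l` vertices spans fewer pairs of `C` than it has vertices. -/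
def Sp (l : ℕ) (C : Finset (Sym2 (Fin n))) : Prop :=
  ∀ W : Finset (Fin n), W.Nonempty → W.card ≤ l → (C.filter fun e => e ∈ W.sym2).card < W.card

/-- `X` is a nonempty set which is connected in `C`. -/
def Conn (C : Finset (Sym2 (Fin n))) (X : Finset (Fin n)) : Prop :=
  X.Nonempty ∧ ∀ S ⊆ X, S.Nonempty → (X \ S).Nonempty → ∃ x ∈ S, ∃ y ∈ X \ S, s(x, y) ∈ C

/-- The fibre of `f` over `z`. -/
def cl (f : Fin n → Fin n) (z : Fin n) : Finset (Fin n) := Finset.univ.filter fun u => f u = z

/-- The residue of a vertex. -/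
def rs (L : ℕ) (v : Fin n) : ZMod L := (v.val : ZMod L)

/-- The vertices of `D` with the residue `r`. -/
def fib (L : ℕ) (D : Finset (Fin n)) (r : ZMod L) : Finset (Fin n) :=
  D.filter fun v => rs L v = r

/-- The residues differ by one. -/
def relA (L : ℕ) (x y : Fin n) : Prop := rs L y = rs L x + 1 ∨ rs L x = rs L y + 1

/-- The residues differ by two. -/
def relB (L : ℕ) (x y : Fin n) : Prop := rs L y = rs L x + 2 ∨ rs L x = rs L y + 2

instance (L : ℕ) (x y : Fin n) : Decidable (relA L x y) := by unfold relA; infer_instance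

instance (L : ℕ) (x y : Fin n) : Decidable (relB L x y) := by unfold relB; infer_instance

end Pool.Agent.Helper72.WC
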