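import Pool.Agent.Helper72.WC.Lower
import Pool.Agent.Helper31.WC.Upper

set_option autoImplicit false

namespace Pool.Agent.Helper72.WC

open Finset

variable {n : ℕ}

theorem Win.mono {b : ℕ} {A A' : Finset (Sym2 (Fin n)) → Prop} (hA : ∀ C, A C → A' C)
    {U C : Finset (Sym2 (Fin n))} (h : Win b A U C) : Win b A' U C := by
  induction h with
  | stop h1 h2 => exact Win.stop h1 (hA _ h2)
  | play B hB hb _ ih => exact Win.play B hB hb ih

/-- The quadratic inequality for the bias. -/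
theorem quad {k n q : ℕ} (hk : 1 ≤ k) (hn : 2 ≤ n) (hq : 0 < q)
    (h : Win (q + 1) (fun C => MinDeg k (gr C)) (board n) ∅) :
    q * k < n ∧ (q + 1) ^ 2 + 4 * k * n * (q + 1) ≤ 4 * n ^ 2 := by
  have h1 := upper (b := q + 1) (u := 2) (by omega) hk le_rfl hn (by omega) h
  have h2 : (q + 1) * k * n ≤ n * (n - 1) := by
    have : (2 - 2) * (q + 1 + 1 - 2) = 0 := by simp
    omega
  have h3 : (q + 1) * k ≤ n - 1 := by
    have : n * ((q + 1) * k) ≤ n * (n - 1) := by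
      calc n * ((q + 1) * k) = (q + 1) * k * n := by ring
        _ ≤ n * (n - 1) := h2
    exact Nat.le_of_mul_le_mul_left this (by omega)
  have h4 : q + 1 ≤ n - 1 := le_trans (Nat.le_mul_of_pos_right _ hk) h3
  refine ⟨by nlinarith [Nat.sub_le n 1], ?_⟩
  obtain ⟨m, hm⟩ : ∃ m, n = m + 1 := ⟨n - 1, by omega⟩
  -- choose `u` about half of `q + 1`
  rcases Nat.even_or_odd' q with ⟨c, hc | hc⟩
  · -- q = 2 c
    have h5 := upper (b := q + 1) (u := c + 1) (by omega) hk (by omega) (by omega) (by omega) h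
    have e1 : c + 1 - 2 = c - 1 := by omega
    have e2 : q + 1 + 1 - (c + 1) = c + 1 := by omega
    rw [e1, e2] at h5
    obtain ⟨c', rfl⟩ : ∃ c', c = c' + 1 := ⟨c - 1, by omega⟩
    subst hm
    simp only [Nat.add_sub_cancel] at h5 h4
    subst hc
    nlinarith
  · have h5 := upper (b := q + 1) (u := c + 2) (by omega) hk (by omega) (by omega) (by omega) h
    have e1 : c + 2 - 2 = c := by omega
    have e2 : q + 1 + 1 - (c + 2) = c + 1 := by omega
    rw [e1, e2] at h5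
    subst hm
    simp only [Nat.add_sub_cancel] at h5 h4
    subst hc
    nlinarith

theorem bdd_D {k n : ℕ} (hk : 1 ≤ k) (hn : 2 ≤ n) :
    BddAbove {q | 0 < q ∧ Win (q + 1) (fun C => MinDeg k (gr C)) (board n) ∅} := by
  refine ⟨n, ?_⟩
  rintro q ⟨hq, h⟩
  have := (quad hk hn hq h).1
  nlinarith

theorem sub_CD {k n : ℕ} : {q | 0 < q ∧ Win (q + 1) (fun C => KConn k (gr C)) (board n) ∅} ⊆
    {q | 0 < q ∧ Win (q + 1) (fun C => MinDeg k (gr C)) (board n) ∅} :=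
  fun _ h => ⟨h.1, Win.mono (fun _ hC => KConn.minDeg hC) h.2⟩

theorem qC_le_qD {k n : ℕ} (hk : 1 ≤ k) (hn : 2 ≤ n) : qC k n ≤ qD k n := by
  unfold qC qD
  rcases Set.eq_empty_or_nonempty
    {q | 0 < q ∧ Win (q + 1) (fun C => KConn k (gr C)) (board n) ∅} with h | h
  · rw [h]
    simp
  · exact csSup_le_csSup (bdd_D hk hn) h sub_CD

/-- The supremum is attained or zero. -/
theorem qD_spec {k n : ℕ} (hk : 1 ≤ k) (hn : 2 ≤ n) :
    qD k n = 0 ∨ (0 < qD k n ∧ Win (qD k n + 1) (fun C => MinDeg k (gr C)) (board n) ∅) := by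
  rcases Set.eq_empty_or_nonempty
    {q | 0 < q ∧ Win (q + 1) (fun C => MinDeg k (gr C)) (board n) ∅} with h | h
  · left
    unfold qD
    rw [h]
    simp
  · right
    exact Nat.sSup_mem h (bdd_D hk hn)

theorem qD_le {k n : ℕ} (hk : 1 ≤ k) (hn : 2 ≤ n) : (qD k n : ℝ) ≤ n / k := by
  have hk' : (0 : ℝ) < k := by exact_mod_cast hk
  rw [le_div_iff₀ hk']
  rcases qD_spec hk hn with h | ⟨h, h'⟩
  · rw [h]; simp
  · have := (quad hk hn h h').1
    exact_mod_cast this.le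

theorem qD_quad {k n : ℕ} (hk : 1 ≤ k) (hn : 2 ≤ n) :
    (qD k n : ℝ) ^ 2 + 4 * k * n * qD k n ≤ 4 * n ^ 2 := by
  rcases qD_spec hk hn with h | ⟨h, h'⟩
  · rw [h]; simp
  · have h1 := (quad hk hn h h').2
    have h2 : ((qD k n : ℝ) + 1) ^ 2 + 4 * k * n * (qD k n + 1) ≤ 4 * n ^ 2 := by
      exact_mod_cast h1
    have h3 : (0 : ℝ) ≤ qD k n := Nat.cast_nonneg _
    have h4 : (0 : ℝ) ≤ 4 * k * n := by positivity
    nlinarith

/-- The upper bound. -/
theorem upper_real {k n : ℕ} (hk : 1 ≤ k) (hn : 2 ≤ n) :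
    (qD k n : ℝ) ≤ 2 * n / (k + √((k : ℝ) ^ 2 + 1)) := by
  have h := qD_quad hk hn
  have hk' : (0 : ℝ) < k := by exact_mod_cast hk
  have hn' : (0 : ℝ) < n := by exact_mod_cast (by omega : 0 < n)
  set s := √((k : ℝ) ^ 2 + 1) with hs
  have hs2 : s ^ 2 = (k : ℝ) ^ 2 + 1 := Real.sq_sqrt (by positivity)
  have hs0 : 0 < s := Real.sqrt_pos.2 (by positivity)
  rw [le_div_iff₀ (by positivity)]
  set q : ℝ := (qD k n : ℝ) with hq
  have hq0 : 0 ≤ q := Nat.cast_nonneg _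
  -- `(q + 2 k n)^2 ≤ 4 n^2 (k^2 + 1) = (2 n s)^2`
  have h1 : (q + 2 * k * n) ^ 2 ≤ (2 * n * s) ^ 2 := by
    have : (2 * n * s) ^ 2 = 4 * (n : ℝ) ^ 2 * s ^ 2 := by ring
    rw [this, hs2]
    nlinarith
  have h2 : q + 2 * k * n ≤ 2 * n * s := le_of_pow_le_pow_left₀ (by norm_num) (by positivity) h1
  have h3 : (s - k) * (k + s) = 1 := by nlinarith
  have h4 : q * (k + s) ≤ 2 * n * (s - k) * (k + s) := by
    refine mul_le_mul_of_nonneg_right ?_ (by positivity)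
    linarith
  calc q * (k + s) ≤ 2 * n * (s - k) * (k + s) := h4
    _ = 2 * n * ((s - k) * (k + s)) := by ring
    _ = 2 * n := by rw [h3, mul_one]

/-- The lower bound. -/
theorem lower_real {k : ℕ} (hk : 128000 ≤ k) : ∃ n0 : ℕ, ∀ n ≥ n0,
    (n : ℝ) / (k + 40 * (k : ℝ) ^ (2 / 3 : ℝ)) ≤ qC k n := by
  -- the choice of `L`
  have hex : ∃ L, 20 ≤ L ∧ 16 * L ^ 3 ≤ k + 1 ∧ k + 1 < 16 * (L + 1) ^ 3 := by
    have h1 : ∃ m, k + 1 < 16 * m ^ 3 := ⟨k + 1, by nlinarith [Nat.zero_le (k ^ 3), sq_nonneg k]⟩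
    classical
    have h2 := Nat.find_spec h1
    have h3 : 20 < Nat.find h1 := by
      by_contra h
      have h4 : Nat.find h1 ≤ 20 := not_lt.1 h
      have h5 : Nat.find h1 ^ 3 ≤ 20 ^ 3 := Nat.pow_le_pow_left h4 3
      omega
    obtain ⟨L, hL⟩ : ∃ L, Nat.find h1 = L + 1 := ⟨Nat.find h1 - 1, by omega⟩
    refine ⟨L, by omega, ?_, by rw [← hL]; exact h2⟩
    by_contra h
    exact Nat.find_min h1 (m := L) (by omega) (by omega)
  obtain ⟨L, hL, h1, h2⟩ := hex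
  set κ := k + 200 * L ^ 2 with hκ
  have hκpos : 0 < κ := by omega
  have hκ' : (0 : ℝ) < κ := by exact_mod_cast hκpos
  have hk' : (0 : ℝ) < k := by exact_mod_cast (by omega : 0 < k)
  set D : ℝ := k + 40 * (k : ℝ) ^ (2 / 3 : ℝ) with hD
  -- `κ < D`
  have hκD : (κ : ℝ) < D := by
    have h3 : (5 * (L : ℝ) ^ 2) ^ 3 < ((k : ℝ) ^ (2 / 3 : ℝ)) ^ 3 := by
      have h4 : ((k : ℝ) ^ (2 / 3 : ℝ)) ^ 3 = (k : ℝ) ^ 2 := by
        rw [← Real.rpow_natCast, ← Real.rpow_mul hk'.le]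
        norm_num
      rw [h4]
      have h5 : 125 * (L ^ 3) ^ 2 < k ^ 2 := by
        have h6 : 1 ≤ L ^ 3 := Nat.one_le_pow _ _ (by omega)
        nlinarith
      have h7 : (5 * (L : ℝ) ^ 2) ^ 3 = 125 * ((L : ℝ) ^ 3) ^ 2 := by ring
      rw [h7]
      exact_mod_cast h5
    have h8 : 5 * (L : ℝ) ^ 2 < (k : ℝ) ^ (2 / 3 : ℝ) :=
      lt_of_pow_lt_pow_left₀ 3 (by positivity) h3
    rw [hκ, hD]
    push_cast
    linarith
  have hDpos : 0 < D := hκ'.trans hκD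
  obtain ⟨n1, hn1⟩ := exists_nat_gt (2 * κ * D / (D - κ))
  refine ⟨n1 + N0 k L + 3 * κ, fun n hn => ?_⟩
  have hwin := lower_core hL h1 h2 (n := n) (by omega)
  rw [← hκ] at hwin
  have hb : 3 ≤ n / κ := by
    rw [Nat.le_div_iff_mul_le hκpos]; omega
  have hkn : 2 ≤ n := by omega
  obtain ⟨q, hq⟩ : ∃ q, n / κ = q + 1 := ⟨n / κ - 1, by omega⟩
  rw [hq] at hwin
  have h9 : q ≤ qC k n :=
    le_csSup ((bdd_D (by omega) hkn).mono sub_CD) ⟨by omega, hwin⟩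
  refine le_trans ?_ (Nat.cast_le.2 h9)
  have h10 : (n : ℝ) < κ * (q + 2) := by
    have := Nat.lt_mul_div_succ n hκpos
    rw [hq] at this
    exact_mod_cast this
  have h11 : (2 : ℝ) * κ * D ≤ n * (D - κ) := by
    have h12 : (2 : ℝ) * κ * D / (D - κ) ≤ n := by
      refine hn1.le.trans ?_
      exact_mod_cast (by omega : n1 ≤ n)
    rwa [div_le_iff₀ (by linarith)] at h12
  rw [div_le_iff₀ hDpos]
  -- `n ≤ q D`: since `κ q > n - 2 κ`, `κ q D > n D - 2 κ D ≥ n κ`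
  have h13 : (κ : ℝ) * n ≤ κ * (q * D) := by
    have h14 : ((n : ℝ) - 2 * κ) * D ≤ κ * q * D := by
      refine mul_le_mul_of_nonneg_right ?_ hDpos.le
      linarith
    nlinarith
  exact le_of_mul_le_mul_left h13 hκ'

end Pool.Agent.Helper72.WC
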