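import Pool.Agent.Helper46.WC.Graph1
import Pool.Agent.Helper92.WC.Graph2
import Pool.Agent.Helper5.WC.Main
import Pool.Agent.Helper63.WC.Clusters
import Pool.Agent.Helper90.WC.Split
import Pool.Agent.Helper10.WC.Counts
import Pool.Agent.Helper90.WC.Seeds
import Pool.Agent.Helper14.WC.Attach
import Pool.Agent.Helper28.WC.Crit

set_option autoImplicit false

namespace Pool.Agent.Helper72.WC

open Finset

variable {n : ℕ}

/-- The bound for `n`. -/
def N0 (k L : ℕ) : ℕ :=
  (k + 200 * L ^ 2) * (8 * (k + 200 * L ^ 2) + 2) ^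
      ((k - 1) * (8 * (k + 200 * L ^ 2) + 2) ^ 2 + k) +
    25 * L * (k + 200 * L ^ 2) +
    3 * L * (k + 1 + k * (8 * (k + 200 * L ^ 2) + 2) ^ 2 *
      ((8 * (k + 200 * L ^ 2) + 2) ^ 2 + 1) ^ L) +
    6 * k * L + 2 * (k + 200 * L ^ 2)

/-- The numerical condition of the main stage. -/
theorem lc_num {L k n b t : ℕ} (hL : 20 ≤ L) (h1 : 16 * L ^ 3 ≤ k + 1)
    (h2 : k + 1 < 16 * (L + 1) ^ 3) (hb : (k + 200 * L ^ 2) * b ≤ n)
    (hn : 25 * L * (k + 200 * L ^ 2) ≤ n) (ht : t ^ 3 ≤ 64 * n ^ 2 * b) :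
    b * (k + 7) + 4 * (n / L + 1) + t + 1 ≤ n := by
  have hL0 : 0 < L := by omega
  set κ := k + 200 * L ^ 2 with hκ
  have hκ16 : 16 * L ^ 3 ≤ κ := by
    have : 1 ≤ L ^ 2 := Nat.one_le_pow _ _ hL0
    omega
  -- the bound for `t`
  have h3 : 5 * L * t ≤ 8 * n := by
    have h4 : 16 * L ^ 3 * t ^ 3 ≤ 64 * n ^ 3 := by
      calc 16 * L ^ 3 * t ^ 3 ≤ 16 * L ^ 3 * (64 * n ^ 2 * b) := Nat.mul_le_mul_left _ ht
        _ = 64 * n ^ 2 * (16 * L ^ 3 * b) := by ring
        _ ≤ 64 * n ^ 2 * (κ * b) :=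
          Nat.mul_le_mul_left _ (Nat.mul_le_mul_right _ hκ16)
        _ ≤ 64 * n ^ 2 * n := Nat.mul_le_mul_left _ hb
        _ = 64 * n ^ 3 := by ring
    have h5 : (5 * L * t) ^ 3 ≤ (8 * n) ^ 3 := by
      have : (5 * L * t) ^ 3 = 125 * (L ^ 3 * t ^ 3) := by ring
      rw [this]
      have h6 : (8 * n) ^ 3 = 512 * n ^ 3 := by ring
      rw [h6]
      have h7 : L ^ 3 * t ^ 3 ≤ 4 * n ^ 3 := by
        have : 16 * (L ^ 3 * t ^ 3) ≤ 16 * (4 * n ^ 3) := by
          calc 16 * (L ^ 3 * t ^ 3) = 16 * L ^ 3 * t ^ 3 := by ring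
            _ ≤ 64 * n ^ 3 := h4
            _ = 16 * (4 * n ^ 3) := by ring
        exact Nat.le_of_mul_le_mul_left this (by norm_num)
      omega
    exact le_of_pow_le_pow_left₀ (by norm_num) (Nat.zero_le _) h5
  have h8 : L * (n / L) ≤ n := Nat.mul_div_le n L
  -- the main inequality
  have hκpos : 0 < κ := by
    have : 1 ≤ L ^ 2 := Nat.one_le_pow _ _ hL0
    omega
  have h9 : 28 * κ + 1 + 35 * L ≤ 1000 * L ^ 3 := by
    have h10 : 28 * κ ≤ 448 * (L + 1) ^ 3 + 5600 * L ^ 2 := by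
      rw [hκ]; omega
    obtain ⟨m, rfl⟩ := Nat.exists_eq_add_of_le hL
    nlinarith [sq_nonneg m, h10, Nat.zero_le (m ^ 3)]
  have h11 : 5 * L * κ * (b * (k + 7) + 4 * (n / L + 1) + t + 1) ≤ 5 * L * κ * n := by
    have e1 : 5 * L * κ * (b * (k + 7)) ≤ 5 * L * n * (k + 7) := by
      calc 5 * L * κ * (b * (k + 7)) = 5 * L * (κ * b) * (k + 7) := by ring
        _ ≤ 5 * L * n * (k + 7) := by
          exact Nat.mul_le_mul_right _ (Nat.mul_le_mul_left _ hb)
    have e2 : 5 * L * κ * (4 * (n / L)) ≤ 20 * κ * n := by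
      calc 5 * L * κ * (4 * (n / L)) = 20 * κ * (L * (n / L)) := by ring
        _ ≤ 20 * κ * n := Nat.mul_le_mul_left _ h8
    have e3 : 5 * L * κ * t ≤ 8 * κ * n := by
      calc 5 * L * κ * t = κ * (5 * L * t) := by ring
        _ ≤ κ * (8 * n) := Nat.mul_le_mul_left _ h3
        _ = 8 * κ * n := by ring
    have e4 : 5 * L * κ * 5 ≤ n := by
      calc 5 * L * κ * 5 = 25 * L * κ := by ring
        _ ≤ n := hn
    have e5 : 5 * L * κ * n = 5 * L * n * k + 1000 * L ^ 3 * n := by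
      rw [hκ]; ring
    have e6 : (28 * κ + 1 + 35 * L) * n ≤ 1000 * L ^ 3 * n := Nat.mul_le_mul_right _ h9
    have e7 : 5 * L * κ * (b * (k + 7) + 4 * (n / L + 1) + t + 1) =
        5 * L * κ * (b * (k + 7)) + 5 * L * κ * (4 * (n / L)) + 5 * L * κ * t +
          5 * L * κ * 5 := by ring
    rw [e7, e5]
    have e8 : 5 * L * n * (k + 7) = 5 * L * n * k + 35 * L * n := by ring
    have e9 : (28 * κ + 1 + 35 * L) * n = 20 * κ * n + 8 * κ * n + n + 35 * L * n := by ring
    omega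
  exact Nat.le_of_mul_le_mul_left h11 (by positivity)

/-- The sizes of the classes. -/
theorem lc_class {L k n c1 tot x : ℕ} (hL : 0 < L) (hk : 0 < k) (hn : 3 * L * (k + 1 + c1) ≤ n)
    (ht1 : n / L ≤ tot) (ht2 : tot ≤ n / L + 1) (hx1 : tot ≤ k * x + c1) (hx2 : k * x ≤ tot + c1) :
    2 * n / (3 * k * L) ≤ x ∧ x ≤ 2 * (2 * n / (3 * k * L)) := by
  set d := 2 * n / (3 * k * L) with hd
  have hpos : 0 < 3 * k * L := by positivity
  have h1 : 3 * k * L * d ≤ 2 * n := Nat.mul_div_le _ _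
  have h2 : 2 * n < 3 * k * L * (d + 1) := by
    rw [hd]; exact Nat.lt_mul_div_succ _ hpos
  have h3 : L * (n / L) ≤ n := Nat.mul_div_le _ _
  have h4 : n < L * (n / L + 1) := Nat.lt_mul_div_succ _ hL
  have h5 : n < L * (k * x + c1 + 1) := by
    refine h4.trans_le (Nat.mul_le_mul_left _ ?_)
    omega
  have h6 : L * (k * x) ≤ n + L * (c1 + 1) := by
    calc L * (k * x) ≤ L * (n / L + 1 + c1) := Nat.mul_le_mul_left _ (by omega)
      _ = L * (n / L) + L * (c1 + 1) := by ring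
      _ ≤ n + L * (c1 + 1) := Nat.add_le_add_right h3 _
  constructor
  · by_contra h
    have h7 : x + 1 ≤ d := by omega
    have h8 : 3 * k * L * (x + 1) ≤ 3 * k * L * d := Nat.mul_le_mul_left _ h7
    nlinarith
  · by_contra h
    have h7 : 2 * d + 1 ≤ x := by omega
    have h8 : L * k * (2 * d + 1) ≤ L * k * x := Nat.mul_le_mul_left _ h7
    nlinarith

theorem lower_core {L k n : ℕ} (hL : 20 ≤ L) (h1 : 16 * L ^ 3 ≤ k + 1)
    (h2 : k + 1 < 16 * (L + 1) ^ 3) (hn : N0 k L ≤ n) :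
    Win (n / (k + 200 * L ^ 2)) (fun C => KConn k (gr C)) (board n) ∅ := by
  classical
  have hL0 : 0 < L := by omega
  have : NeZero L := ⟨by omega⟩
  set κ := k + 200 * L ^ 2 with hκ
  have hκpos : 0 < κ := by
    have : 1 ≤ L ^ 2 := Nat.one_le_pow _ _ hL0
    omega
  set Δ := 8 * κ + 1 with hΔ
  set K0 := (Δ + 1) ^ 2 with hK0
  set l := (k - 1) * K0 + k with hl
  set c1 := k * K0 * (K0 + 1) ^ L with hc1
  have hN : κ * (Δ + 1) ^ l + 25 * L * κ + 3 * L * (k + 1 + c1) + 6 * k * L + 2 * κ ≤ n := hn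
  have hk2 : 2 ≤ k := by
    have : 20 ^ 3 ≤ L ^ 3 := Nat.pow_le_pow_left hL 3
    omega
  set b := n / κ with hb
  have hbn : κ * b ≤ n := Nat.mul_div_le _ _
  have hbn2 : n < κ * (b + 1) := Nat.lt_mul_div_succ _ hκpos
  have hβ : (Δ + 1) ^ l ≤ b := by
    rw [hb, Nat.le_div_iff_mul_le hκpos, mul_comm]
    omega
  have hbpos : 0 < b := lt_of_lt_of_le (by positivity) hβ
  have h2κ : 2 * κ ≤ n := by omega
  have hn2 : n ≤ 2 * κ * b := by nlinarith
  have hnb : n / b ≤ 2 * κ := by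
    rw [Nat.div_le_iff_le_mul_add_pred hbpos]
    have : 2 * κ * b ≤ b * (2 * κ) + (b - 1) := by nlinarith
    omega
  have hkn : k < n := by
    have : 6 * k * L ≤ n := by omega
    nlinarith
  have hN25 : 25 * L * κ ≤ n := by omega
  have hNc1 : 3 * L * (k + 1 + c1) ≤ n := by omega
  -- the main stage
  have hmain := main_stage (n := n) (b := b) (k := k) (K := 6 * κ) (Δ := Δ) (l := l)
    (r0 := 4 * (n / L + 1)) (ρ := fun x y => relA L x y ∨ relB L x y)
    (by
      rintro x y (h | h)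
      · exact Or.inl h.symm
      · exact Or.inr h.symm)
    (fun x => card_rel x) hbpos (by nlinarith) (by nlinarith) (by nlinarith) (by omega) hβ
    (fun t ht => by
      have := lc_num hL h1 h2 hbn hN25 ht
      omega)
  refine Force.win hbpos (fun C C' h => KConn.mono h) (hmain.trans ?_)
  rintro U1 C1 ⟨hC1, hU1, _, hres, hlo, hup, hsp⟩
  obtain ⟨f, hff, hconn, hcl1, hcl2⟩ := clusters hC1 hlo hup
  obtain ⟨g, hg, hg2⟩ := split (L := L) (k := k) (K0 := K0) (by omega) hff hcl2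
  have hclass : ∀ (j : Fin k) (r : ZMod L),
      2 * n / (3 * k * L) ≤ (fib L (univ.filter fun v => g v = j) r).card ∧
      (fib L (univ.filter fun v => g v = j) r).card ≤ 2 * (2 * n / (3 * k * L)) := by
    intro j r
    exact lc_class hL0 (by omega) hNc1 (card_fib_univ r).1 (card_fib_univ r).2
      (hg2 j r).1 (hg2 j r).2
  set d := 2 * n / (3 * k * L) with hd
  have hpos : 0 < 3 * k * L := by positivity
  have hd1 : 2 * n < 3 * k * L * (d + 1) := Nat.lt_mul_div_succ _ hpos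
  have hdnum : 8 * L ^ 2 * b ≤ d * (k + 1) := by
    have e1 : 16 * L ^ 3 * b ≤ n := by
      refine le_trans (Nat.mul_le_mul_right _ ?_) hbn
      have : 1 ≤ L ^ 2 := Nat.one_le_pow _ _ hL0
      omega
    have e2 : 6 * k * L ≤ n := by omega
    have e3 : 3 * L * (8 * L ^ 2 * b) ≤ 3 * L * (d * (k + 1)) := by
      have e4 : 3 * L * (8 * L ^ 2 * b) = 24 * (L ^ 3 * b) := by ring
      have e5 : 16 * (L ^ 3 * b) ≤ n := by
        calc 16 * (L ^ 3 * b) = 16 * L ^ 3 * b := by ring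
          _ ≤ n := e1
      have e6 : 3 * k * L * (d + 1) = 3 * L * (d * k) + 3 * k * L := by ring
      have e7 : 3 * L * (d * (k + 1)) = 3 * L * (d * k) + 3 * L * d := by ring
      have e8 : 6 * k * L = 2 * (3 * k * L) := by ring
      omega
    exact Nat.le_of_mul_le_mul_left e3 (by positivity)
  have hdpos : 0 < d := by
    rcases Nat.eq_zero_or_pos d with h0 | h0
    · rw [h0, zero_mul] at hdnum
      have : 0 < 8 * L ^ 2 * b := by positivity
      omega
    · exact h0
  -- the seeds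
  refine (seeds (n := n) (b := b) (L := L) (d := d) (M := k + 1) hbpos (by omega) hdpos hff hg
    (fun j r => (hclass j r).1) (fun j r => (hclass j r).2) hcl1 hdnum hconn
    (fun x y hxy h => hres x y hxy (Or.inl h))).trans ?_
  rintro U2 C2 ⟨hC12, hC2, hU2, hused, X, hX⟩
  have hA : ∀ x y : Fin n, relA L x y → relB L x y → False := by
    intro x y hA hB
    have h3 : (3 : ZMod L) ≠ 0 := by
      intro h
      have : ((3 : ℕ) : ZMod L) = 0 := by exact_mod_cast h
      rw [ZMod.natCast_eq_zero_iff] at this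
      have := Nat.le_of_dvd (by norm_num) this
      omega
    have h4 : (1 : ZMod L) ≠ 0 := by
      intro h
      have : ((1 : ℕ) : ZMod L) = 0 := by exact_mod_cast h
      rw [ZMod.natCast_eq_zero_iff] at this
      have := Nat.le_of_dvd (by norm_num) this
      omega
    rcases hA with hA | hA <;> rcases hB with hB | hB
    · apply h4
      have : rs L x + 1 = rs L x + 2 := hA.symm.trans hB
      linear_combination -this
    · apply h3
      have : rs L x = rs L x + 1 + 2 := by rw [← hA]; exact hB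
      linear_combination -this
    · apply h3
      have : rs L y = rs L y + 1 + 2 := by rw [← hA]; exact hB
      linear_combination -this
    · apply h4
      have : rs L y + 1 = rs L y + 2 := hA.symm.trans hB
      linear_combination -this
  have hAs : ∀ x y : Fin n, relA L x y → relA L y x := fun x y h => h.symm
  -- the attachments
  refine (attach (n := n) (b := b) (L := L) (d := d) (M := k + 1) (by omega) hbpos hff (X := X)
    ?_ (fun j => (hX j).2.1) (fun j => (hX j).2.2.2) hcl1 ?_ (U := U2) (C := C2) ?_).mono ?_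
  · intro i j hij
    rw [Finset.disjoint_left]
    intro v hvi hvj
    exact hij (((hX i).1 v hvi).symm.trans ((hX j).1 v hvj))
  · have : 1 ≤ L ^ 2 := Nat.one_le_pow _ _ hL0
    nlinarith
  · intro x y hxy hB
    by_contra hno
    obtain ⟨x', y', hA', he⟩ := hused _ (hres x y hxy (Or.inr hB)) hno
    rw [Sym2.eq_iff] at he
    rcases he with ⟨rfl, rfl⟩ | ⟨rfl, rfl⟩
    · exact hA _ _ hA' hB
    · exact hA _ _ (hAs _ _ hA') hB
  · rintro U3 C3 ⟨hC23, hC3, hatt⟩
    have hC13 : C1 ⊆ C3 := hC12.trans hC23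
    refine criterion (m0 := (k - 1) * K0) (K0 := K0) (by omega) hkn ?_
      (fun v => (hconn v).mono hC13) hcl2 le_rfl (X := X) (fun j => ((hX j).2.2.1).mono hC23) ?_
      hatt
    · intro A hAne hAc
      refine (small_sets hC1 hsp hlo hk2 hAne (by omega)).trans (Finset.card_le_card ?_)
      refine Finset.sdiff_subset_sdiff ?_ le_rfl
      refine Finset.biUnion_mono fun x _ => ?_
      intro y hy
      simp only [nb, Finset.mem_filter, Finset.mem_univ, true_and] at hy ⊢
      exact hC13 hy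
    · intro i j hij
      rw [Finset.disjoint_left]
      intro v hvi hvj
      exact hij (((hX i).1 v hvi).symm.trans ((hX j).1 v hvj))

end Pool.Agent.Helper72.WC
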